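import Pool.Agent.helper93.FR.Spec

/-!
# Schur's lemma for star intertwiners (row fr:Sch)
-/

namespace Pool.Agent.helper13.FR

open Matrix Pool.Agent.helper93.FR
open scoped ComplexOrder

theorem SInt_conj {κ m n : Type*} [Fintype m] [Fintype n] {y : κ → Matrix m m ℂ}
    {z : κ → Matrix n n ℂ} {h : Matrix n m ℂ} (H : SInt y z h) : SInt z y hᴴ := by
  intro j
  obtain ⟨h1, h2⟩ := H j
  constructor
  · have := congrArg conjTranspose h2
    rw [conjTranspose_mul, conjTranspose_mul, conjTranspose_conjTranspose,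
      conjTranspose_conjTranspose] at this
    exact this.symm
  · have := congrArg conjTranspose h1
    rw [conjTranspose_mul, conjTranspose_mul] at this
    exact this.symm

theorem SInt_comp {κ m n p : Type*} [Fintype m] [Fintype n] [Fintype p] {y : κ → Matrix m m ℂ}
    {z : κ → Matrix n n ℂ} {w : κ → Matrix p p ℂ} {h : Matrix n m ℂ} {g : Matrix p n ℂ}
    (H : SInt y z h) (G : SInt z w g) : SInt y w (g * h) := by
  intro j
  obtain ⟨h1, h2⟩ := H j
  obtain ⟨g1, g2⟩ := G j
  constructor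
  · rw [Matrix.mul_assoc, h1, ← Matrix.mul_assoc, g1, Matrix.mul_assoc]
  · rw [Matrix.mul_assoc, h2, ← Matrix.mul_assoc, g2, Matrix.mul_assoc]

theorem Sch : Sch_stmt := by
  intro κ m n _ _ _ _ y z h hy hz H h0
  obtain ⟨t, ht⟩ := hy.2 _ (SInt_comp H (SInt_conj H))
  obtain ⟨t', ht'⟩ := hz.2 _ (SInt_comp (SInt_conj H) H)
  obtain ⟨x⟩ := hy.1
  have htx : t = ((∑ i, Complex.normSq (h i x) : ℝ) : ℂ) := by
    have e := congrFun (congrFun ht x) x
    rw [Matrix.smul_apply, Matrix.one_apply_eq, smul_eq_mul, mul_one, Matrix.mul_apply] at e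
    rw [← e]
    push_cast
    refine Finset.sum_congr rfl fun i _ => ?_
    rw [Matrix.conjTranspose_apply, Complex.normSq_eq_conj_mul_self]
    rfl
  have ht0 : t ≠ 0 := by
    rintro rfl
    rw [zero_smul] at ht
    exact h0 (Matrix.conjTranspose_mul_self_eq_zero.1 ht)
  have hc0 : 0 ≤ ∑ i, Complex.normSq (h i x) := Finset.sum_nonneg fun i _ => Complex.normSq_nonneg _
  have hcpos : 0 < ∑ i, Complex.normSq (h i x) := by
    refine lt_of_le_of_ne hc0 fun e => ht0 ?_
    rw [htx, ← e]; simp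
  have hA : h * hᴴ * h = t' • h := by rw [ht', Matrix.smul_mul, Matrix.one_mul]
  have hB : h * hᴴ * h = t • h := by rw [Matrix.mul_assoc, ht, Matrix.mul_smul, Matrix.mul_one]
  have htt : t' = t := by
    have e : (t' - t) • h = 0 := by rw [sub_smul, ← hA, ← hB, sub_self]
    rcases smul_eq_zero.1 e with e | e
    · exact sub_eq_zero.1 e
    · exact absurd e h0
  refine ⟨⟨_, hcpos, by rw [← htx]; exact ht, by rw [← htx, ← htt]; exact ht'⟩, ?_⟩
  intro g G
  obtain ⟨w, hw⟩ := hy.2 _ (SInt_comp G (SInt_conj H))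
  refine ⟨t⁻¹ * w, ?_⟩
  have e1 : h * hᴴ * g = t • g := by rw [ht', htt, Matrix.smul_mul, Matrix.one_mul]
  have e2 : h * hᴴ * g = w • h := by rw [Matrix.mul_assoc, hw, Matrix.mul_smul, Matrix.mul_one]
  rw [mul_smul, ← e2, e1, smul_smul, inv_mul_cancel₀ ht0, one_smul]

end Pool.Agent.helper13.FR
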